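import Pool.Agent.KS6_78.SM.Main

/-!
# Maximal ideal independent families with prescribed ultrafilters

Assume `𝔡 = 𝔲 = ℵ₁`.  Then `𝔰_mm = ℵ₁`, and more is true.

If `A` is a member of an ideal independent family `I`, the sets `A \ ⋃ F`, `F` a finite subset of
`I \ {A}`, generate (modulo finite sets) a filter.  If this filter is an ultrafilter, call it the
ultrafilter of `I` at `A`; if `I` has at most `ℵ₁` members, it has a base of at most `ℵ₁` sets.
It is proved that nothing else can be said about these ultrafilters: for every family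
`(q_i)`, `i < ω₁`, of nonprincipal ultrafilters which have bases of at most `ℵ₁` sets there is a
maximal ideal independent family `{B_i : i < ω₁}` whose ultrafilter at `B_i` is isomorphic to `q_i`
for all `i`.  Moreover the first countably many members can be prescribed as well: if `I₀` is a
countable ideal independent family, and `I₀` is not (finite and) maximal, then there is such a
family which contains `I₀`, and the ultrafilters at the members of `I₀` and at the `ℵ₁` new members
can be prescribed.
-/

set_option autoImplicit false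

namespace Pool.Agent.Results.MP_5eed22_lc.PrescribedUltrafilters

open Set Cardinal Filter

/-- `I` is ideal independent: its members are infinite subsets of `ℕ`, and for every member `A` and
every finite set `F` of other members the set `A \ ⋃ F` is infinite. -/
def IdealIndependent (I : Set (Set ℕ)) : Prop :=
  (∀ A ∈ I, A.Infinite) ∧
    ∀ A ∈ I, ∀ F : Set (Set ℕ), F.Finite → F ⊆ I \ {A} → (A \ ⋃₀ F).Infinite

/-- `I` is a maximal ideal independent family. -/
def MaximalIdealIndependent (I : Set (Set ℕ)) : Prop :=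
  IdealIndependent I ∧ ∀ J : Set (Set ℕ), IdealIndependent J → I ⊆ J → J = I

/-- `𝔰_mm`: the least cardinality of an infinite maximal ideal independent family. -/
noncomputable def smm : Cardinal.{0} :=
  sInf {κ | ∃ I : Set (Set ℕ), I.Infinite ∧ MaximalIdealIndependent I ∧ #I = κ}

/-- The dominating number `𝔡`. -/
noncomputable def dNumber : Cardinal.{0} :=
  sInf {κ | ∃ D : Set (ℕ → ℕ), (∀ f : ℕ → ℕ, ∃ g ∈ D, ∀ᶠ n in atTop, f n ≤ g n) ∧ #D = κ}

/-- `B` is a base of the ultrafilter `p`: its members belong to `p`, and every member of `p`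
contains a member of `B` modulo a finite set. -/
def IsBase (p : Ultrafilter ℕ) (B : Set (Set ℕ)) : Prop :=
  (∀ b ∈ B, b ∈ p) ∧ ∀ U ∈ p, ∃ b ∈ B, (b \ U).Finite

/-- The ultrafilter number `𝔲`: the least cardinality of a base of a nonprincipal ultrafilter. -/
noncomputable def uNumber : Cardinal.{0} :=
  sInf {κ | ∃ p : Ultrafilter ℕ, (∀ n : ℕ, {n} ∉ p) ∧ ∃ B : Set (Set ℕ), IsBase p B ∧ #B = κ}

/-- `q` is a nonprincipal ultrafilter with a base of at most `ℵ₁` sets. -/
def Small (q : Ultrafilter ℕ) : Prop :=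
  (∀ n : ℕ, {n} ∉ q) ∧ ∃ B : Set (Set ℕ), IsBase q B ∧ #B ≤ ℵ₁

/-- The filter generated by the cofinite sets and the sets `A \ ⋃ F`, `F` a finite subset of
`I \ {A}`, is an ultrafilter, and it is isomorphic to `q`: a permutation of `ℕ` maps `q` to it. -/
def UltrafilterAt (I : Set (Set ℕ)) (A : Set ℕ) (q : Ultrafilter ℕ) : Prop :=
  ∃ σ : Equiv.Perm ℕ, ∀ X : Set ℕ, X ∈ q.map σ ↔
    ∃ F : Set (Set ℕ), F.Finite ∧ F ⊆ I \ {A} ∧ ((A \ ⋃₀ F) \ X).Finite

/-- **Main theorem (ZFC).** Assume `𝔡 = 𝔲 = ℵ₁`.
1. `𝔰_mm = ℵ₁` (the question).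
2. Let `W` be a set of cardinality `ℵ₁` and `I₀` a countable ideal independent family which is not
both finite and maximal, and let `q_A` (`A ∈ I₀`) and `q_w` (`w ∈ W`) be nonprincipal ultrafilters
with bases of at most `ℵ₁` sets.  There is a maximal ideal independent family which consists of the
members of `I₀` and of distinct further sets `B_w`, `w ∈ W`, such that its ultrafilters at `A` and
at `B_w` are isomorphic to `q_A` and `q_w`, for all `A ∈ I₀` and `w ∈ W`.
3. For a family `(q_w)`, `w ∈ W`, of ultrafilters on `ℕ` there is a maximal ideal independent family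
`{B_w : w ∈ W}` of distinct sets whose ultrafilter at `B_w` is isomorphic to `q_w` for all `w` if and
only if all `q_w` are nonprincipal and have bases of at most `ℵ₁` sets. -/
theorem result (hd : dNumber = ℵ₁) (hu : uNumber = ℵ₁) :
    smm = ℵ₁ ∧
    (∀ W : Type, #W = ℵ₁ → ∀ I₀ : Set (Set ℕ), I₀.Countable → IdealIndependent I₀ →
      ¬ (I₀.Finite ∧ MaximalIdealIndependent I₀) →
      ∀ q : I₀ ⊕ W → Ultrafilter ℕ, (∀ i, Small (q i)) →
        ∃ B : I₀ ⊕ W → Set ℕ, Function.Injective B ∧ (∀ A : I₀, B (Sum.inl A) = A) ∧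
          MaximalIdealIndependent (range B) ∧ ∀ i, UltrafilterAt (range B) (B i) (q i)) ∧
    (∀ W : Type, #W = ℵ₁ → ∀ q : W → Ultrafilter ℕ,
      (∃ B : W → Set ℕ, Function.Injective B ∧ MaximalIdealIndependent (range B) ∧
        ∀ i, UltrafilterAt (range B) (B i) (q i)) ↔ ∀ i, Small (q i)) := by
  have hℵ : (ℵ₀ : Cardinal.{0}) ≤ ℵ₁ := Cardinal.aleph0_le_aleph 1
  have hreal : ∀ W : Type, #W = ℵ₁ → ∀ I₀ : Set (Set ℕ), I₀.Countable → IdealIndependent I₀ →
      ¬ (I₀.Finite ∧ MaximalIdealIndependent I₀) →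
      ∀ q : I₀ ⊕ W → Ultrafilter ℕ, (∀ i, Small (q i)) →
        ∃ B : I₀ ⊕ W → Set ℕ, Function.Injective B ∧ (∀ A : I₀, B (Sum.inl A) = A) ∧
          MaximalIdealIndependent (range B) ∧ ∀ i, UltrafilterAt (range B) (B i) (q i) :=
    fun W hW I₀ hc hI hn q hq => KS6_78.SM.realise hd hu hW hI hc hn q hq
  have h0 : IdealIndependent (∅ : Set (Set ℕ)) :=
    ⟨fun A hA => absurd hA (notMem_empty A), fun A hA => absurd hA (notMem_empty A)⟩
  have hnm : ¬ MaximalIdealIndependent (∅ : Set (Set ℕ)) := by
    rintro ⟨_, h⟩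
    have h1 : IdealIndependent {(Set.univ : Set ℕ)} := by
      refine ⟨?_, ?_⟩
      · rintro A hA
        rw [mem_singleton_iff.1 hA]
        exact infinite_univ
      · rintro A hA F _ hFs
        rw [mem_singleton_iff.1 hA] at hFs ⊢
        have h2 : F = ∅ := by
          rw [Set.eq_empty_iff_forall_notMem]
          intro B hB
          exact (hFs hB).2 (hFs hB).1
        rw [h2, sUnion_empty, sdiff_empty]
        exact infinite_univ
    have h3 := h _ h1 (empty_subset _)
    exact absurd h3 (singleton_ne_empty _)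
  have hexact : ∀ W : Type, #W = ℵ₁ → ∀ q : W → Ultrafilter ℕ,
      (∃ B : W → Set ℕ, Function.Injective B ∧ MaximalIdealIndependent (range B) ∧
        ∀ i, UltrafilterAt (range B) (B i) (q i)) ↔ ∀ i, Small (q i) := by
    intro W hW q
    constructor
    · rintro ⟨B, _, hmax, hB⟩ i
      obtain ⟨σ, hσ⟩ := hB i
      exact KS6_78.SM.small_of_attached hmax.1 (Cardinal.mk_range_le.trans hW.le)
        (mem_range_self i) hσ
    · intro hq
      obtain ⟨B, hinj, _, hmax, hB⟩ := hreal W hW ∅ countable_empty h0 (fun h => hnm h.2)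
        (Sum.elim (fun A => absurd A.2 (notMem_empty _)) q) (by
          rintro (A | w)
          · exact absurd A.2 (notMem_empty _)
          · exact hq w)
      have hr : range (fun w => B (Sum.inr w)) = range B := by
        ext s
        constructor
        · rintro ⟨w, rfl⟩
          exact mem_range_self _
        · rintro ⟨A | w, rfl⟩
          · exact absurd A.2 (notMem_empty _)
          · exact ⟨w, rfl⟩
      refine ⟨fun w => B (Sum.inr w), fun a b hab => Sum.inr_injective (hinj hab), ?_, ?_⟩
      · rw [hr]; exact hmax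
      · intro w
        rw [hr]; exact hB (Sum.inr w)
  refine ⟨?_, hreal, hexact⟩
  have hTcard : #((ℵ₁ : Cardinal.{0}).ord.ToType) = ℵ₁ := Cardinal.mk_ord_toType _
  obtain ⟨p, hp1, _, hp2⟩ := KS6_78.SM.exists_hub hu (infinite_univ (α := ℕ))
  obtain ⟨B, hinj, hmax, _⟩ := (hexact _ hTcard (fun _ => p)).2 (fun _ => ⟨hp1, hp2⟩)
  have hBc : #(range B) = ℵ₁ := (Cardinal.mk_range_eq B hinj).trans hTcard
  have hBinf : (range B).Infinite := by
    rw [← Set.infinite_coe_iff, Cardinal.infinite_iff, hBc]
    exact hℵ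
  apply le_antisymm
  · exact csInf_le' ⟨range B, hBinf, hmax, hBc⟩
  · refine le_csInf ⟨ℵ₁, range B, hBinf, hmax, hBc⟩ ?_
    rintro κ ⟨J, hJinf, hJ, rfl⟩
    rw [← Cardinal.succ_aleph0, Order.succ_le_iff]
    by_contra hcon
    rw [not_lt, Cardinal.le_aleph0_iff_set_countable] at hcon
    exact Pool.Agent.W635.Smm.not_countable hJinf hcon hJ

end Pool.Agent.Results.MP_5eed22_lc.PrescribedUltrafilters
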